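import Pool.Agent.W837.GB.Defs

set_option autoImplicit false

namespace Pool.Agent.W473.GB
open Pool.Agent.W837.GB

theorem bt_end {M : Type} [AddCommGroup M] [Module ℂ M] [FiniteDimensional ℂ M] [Nontrivial M]
    (B : Subalgebra ℂ (Module.End ℂ M))
    (hB : ∀ T : Submodule ℂ M, (∀ x ∈ B, T.map x ≤ T) → T = ⊥ ∨ T = ⊤) : B = ⊤ := by
  have hsimple : IsSimpleModule B M := by
    rw [isSimpleModule_iff]
    refine { exists_pair_ne := ⟨⊥, ⊤, bot_ne_top⟩, eq_bot_or_eq_top := ?_ }
    intro N
    have h := hB (N.restrictScalars ℂ) (by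
      rintro x hx y ⟨z, hz, rfl⟩
      exact N.smul_mem (⟨x, hx⟩ : B) hz)
    rcases h with h | h
    · left
      rw [Submodule.restrictScalars_eq_bot_iff] at h
      exact h
    · right
      rw [Submodule.restrictScalars_eq_top_iff] at h
      exact h
  have schur : ∀ f : Module.End B M, ∃ c : ℂ, ∀ x : M, f x = c • x := by
    intro f
    obtain ⟨c, hc⟩ := Module.End.exists_eigenvalue (f.restrictScalars ℂ : Module.End ℂ M)
    refine ⟨c, ?_⟩
    obtain ⟨v, hv⟩ := hc.exists_hasEigenvector
    have hv1 : f v = c • v := hv.apply_eq_smul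
    have hv0 : v ≠ 0 := hv.2
    let K : Submodule B M :=
      { carrier := {x | f x = c • x}
        add_mem' := by
          intro a b ha hb
          simp only [Set.mem_ofPred_eq] at ha hb ⊢
          rw [map_add, ha, hb, smul_add]
        zero_mem' := by simp
        smul_mem' := by
          intro r x hx
          simp only [Set.mem_ofPred_eq] at hx ⊢
          rw [map_smul, hx]
          exact (smul_comm c r x).symm }
    have hK : K = ⊤ := by
      rcases eq_bot_or_eq_top K with h | h
      · exfalso
        have : v ∈ K := hv1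
        rw [h] at this
        exact hv0 (by simpa using this)
      · exact h
    intro x
    have : x ∈ K := by rw [hK]; trivial
    exact this
  rw [eq_top_iff]
  intro g _
  let F : Module.End (Module.End B M) M :=
    { toFun := g
      map_add' := g.map_add
      map_smul' := by
        intro f x
        obtain ⟨c, hc⟩ := schur f
        simp only [Module.End.smul_def, RingHom.id_apply]
        rw [hc, hc, map_smul] }
  let b := Module.finBasis ℂ M
  classical
  obtain ⟨r, hr⟩ := jacobson_density F (Finset.univ.image b)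
  have : g = (r : Module.End ℂ M) := by
    apply b.ext
    intro i
    exact hr (b i) (Finset.mem_image_of_mem _ (Finset.mem_univ i))
  rw [this]
  exact r.2

theorem bt : S_BT := by
  intro m A hA hm
  have : Nonempty (Fin m) := ⟨⟨0, hm⟩⟩
  let e : Matrix (Fin m) (Fin m) ℂ ≃ₐ[ℂ] Module.End ℂ (Fin m → ℂ) := Matrix.toLinAlgEquiv'
  have h := bt_end (A.map (e : Matrix (Fin m) (Fin m) ℂ →ₐ[ℂ] Module.End ℂ (Fin m → ℂ))) (by
    intro T hT
    apply hA T
    intro x hx
    exact hT (e x) ⟨x, hx, rfl⟩)
  rw [eq_top_iff]
  intro x _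
  have hx : e x ∈ A.map (e : Matrix (Fin m) (Fin m) ℂ →ₐ[ℂ] Module.End ℂ (Fin m → ℂ)) := by
    rw [h]; trivial
  obtain ⟨y, hy, hxy⟩ := hx
  have : y = x := e.injective hxy
  rw [← this]
  exact hy

end Pool.Agent.W473.GB
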