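import Pool.Agent.W473.GB.SD

set_option autoImplicit false
open MeasureTheory ProbabilityTheory
open scoped Matrix

namespace Pool.Agent.W473.GB
open Pool.Agent.W837.GB

theorem al_herm {n m : ℕ} (a : Fin n → Matrix (Fin m) (Fin m) ℂ) (j : Fin n) :
    (al a j).IsHermitian := by
  unfold al Matrix.IsHermitian
  rw [Matrix.fromBlocks_conjTranspose]
  simp

theorem pt_res_cont (h3 : S_RD) {ν : Type} [Fintype ν] [DecidableEq ν] {n : ℕ}
    (α : Fin n → Matrix ν ν ℂ) (hα : ∀ j, (α j).IsHermitian) {N : ℕ} (hN : 1 ≤ N) {δ : ℝ}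
    (hδ : 0 < δ) (a b : ν) :
    Continuous (fun g : Fin n × Fin N × Fin N → ℝ => pt (res (AN α N g) δ) a b) := by
  simp only [pt]
  refine continuous_const.mul (continuous_finsetSum _ fun k _ => ?_)
  exact ((h3 ν n α N δ hα hN hδ (a, k) (b, k)).1).continuous

theorem pt_res_bound (h2 : S_RES) {ν : Type} [Fintype ν] [DecidableEq ν] {n : ℕ}
    (α : Fin n → Matrix ν ν ℂ) (hα : ∀ j, (α j).IsHermitian) {N : ℕ} (hN : 1 ≤ N) {δ : ℝ}
    (hδ : 0 < δ) (a b : ν) (g : Fin n × Fin N × Fin N → ℝ) :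
    ‖pt (res (AN α N g) δ) a b‖ ≤ δ⁻¹ := by
  have hNr : (0 : ℝ) < N := by exact_mod_cast hN
  simp only [pt]
  have hs := (h2 (ν × Fin N) (AN α N g) δ (AN_herm α hα N g) hδ).2.1
  rw [norm_mul, norm_inv, Complex.norm_natCast]
  calc (N : ℝ)⁻¹ * ‖∑ k, res (AN α N g) δ (a, k) (b, k)‖
      ≤ (N : ℝ)⁻¹ * ∑ k : Fin N, δ⁻¹ := by
        refine mul_le_mul_of_nonneg_left ?_ (by positivity)
        exact (norm_sum_le _ _).trans (Finset.sum_le_sum fun k _ => hs _ _)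
    _ = δ⁻¹ := by
        rw [Finset.sum_const, Finset.card_univ, Fintype.card_fin, nsmul_eq_mul]
        field_simp

theorem tg_eq (h2 : S_BLK) {n m N : ℕ} (a : Fin n → Matrix (Fin m) (Fin m) ℂ) {δ : ℝ}
    (hN : 1 ≤ N) (hδ : 0 < δ) (g : Fin n × Fin N × Fin N → ℝ) :
    tg (AN a N g) δ = N * (∑ x, pt (res (AN (al a) N g) δ) (Sum.inl x) (Sum.inl x)).im := by
  have hNr : (N : ℝ) ≠ 0 := by
    have : (0 : ℝ) < N := by exact_mod_cast hN
    exact this.ne'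
  have hb := (h2 n m N a δ hN hδ).1 g
  have e : ∀ x, pt (res (AN (al a) N g) δ) (Sum.inl x) (Sum.inl x) =
      Complex.I * (pt ((δ : ℂ) • (Q (AN a N g) δ)⁻¹) x x) := fun x => (hb x x).1
  simp_rw [e]
  rw [← Finset.mul_sum]
  have e2 : ∑ x, pt ((δ : ℂ) • (Q (AN a N g) δ)⁻¹) x x =
      (((N : ℝ)⁻¹ * δ : ℝ) : ℂ) * ((Q (AN a N g) δ)⁻¹).trace := by
    simp only [pt, Matrix.trace, Matrix.diag_apply, Matrix.smul_apply, smul_eq_mul]
    rw [Fintype.sum_prod_type]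
    push_cast
    simp only [Finset.mul_sum]
    refine Finset.sum_congr rfl fun x _ => Finset.sum_congr rfl fun k _ => by ring
  rw [e2]
  unfold tg
  simp only [Complex.mul_im, Complex.I_re, Complex.I_im, Complex.mul_re, Complex.ofReal_re,
    Complex.ofReal_im]
  field_simp
  ring

theorem gvar (h1 : S_RB) (h2 : S_BLK) (h4 : S_RES) (h5 : S_RD) : S_GVAR := by
  intro n m a hm
  obtain ⟨C, hC0, hC⟩ := h1 (Fin m ⊕ Fin m) n (al a) (al_herm a)
  refine ⟨C, hC0, ?_⟩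
  intro N δ hN hδ
  have hNr : (0 : ℝ) < N := by exact_mod_cast hN
  have hmr : (0 : ℝ) < m := by exact_mod_cast hm
  set D : Fin m → (Fin n × Fin N × Fin N → ℝ) → ℂ :=
    fun x g => pt (res (AN (al a) N g) δ) (Sum.inl x) (Sum.inl x) with hD
  have hDc : ∀ x, Continuous (D x) := fun x => pt_res_cont h5 (al a) (al_herm a) hN hδ _ _
  have hDb : ∀ x g, ‖D x g‖ ≤ δ⁻¹ := fun x g => pt_res_bound h4 (al a) (al_herm a) hN hδ _ _ g
  have hDm : ∀ x, AEStronglyMeasurable (D x) (gam (Fin n × Fin N × Fin N)) :=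
    fun x => (hDc x).aestronglyMeasurable
  have hDi : ∀ x, Integrable (D x) (gam (Fin n × Fin N × Fin N)) :=
    fun x => Integrable.of_bound (hDm x) _ (ae_of_all _ (hDb x))
  have hSi : Integrable (fun g => ∑ x, D x g) (gam (Fin n × Fin N × Fin N)) :=
    integrable_finsetSum _ fun x _ => hDi x
  have htg : ∀ g, tg (AN a N g) δ / (m * N) = (m : ℝ)⁻¹ * (∑ x, D x g).im := by
    intro g
    rw [tg_eq h2 a hN hδ g]
    field_simp
    rfl
  have hmean : (∫ h, tg (AN a N h) δ ∂(gam (Fin n × Fin N × Fin N))) / (m * N) =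
      (m : ℝ)⁻¹ * (∑ x, ∫ g, D x g ∂(gam (Fin n × Fin N × Fin N))).im := by
    rw [← integral_div]
    simp_rw [htg]
    rw [integral_const_mul, ← integral_finsetSum _ fun x _ => hDi x]
    congr 1
    exact integral_im hSi
  have hdev : ∀ g, tg (AN a N g) δ / (m * N) -
      (∫ h, tg (AN a N h) δ ∂(gam (Fin n × Fin N × Fin N))) / (m * N) =
      (m : ℝ)⁻¹ * (∑ x, (D x g - ∫ g, D x g ∂(gam (Fin n × Fin N × Fin N)))).im := by
    intro g
    rw [htg, hmean, Finset.sum_sub_distrib, Complex.sub_im]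
    ring
  have hsqi : ∀ x, Integrable (fun g => ‖D x g - ∫ g, D x g ∂(gam (Fin n × Fin N × Fin N))‖ ^ 2)
      (gam (Fin n × Fin N × Fin N)) := by
    intro x
    refine Integrable.of_bound ((((hDm x).sub aestronglyMeasurable_const).norm).pow 2)
      ((δ⁻¹ + ‖∫ g, D x g ∂(gam (Fin n × Fin N × Fin N))‖) ^ 2) (ae_of_all _ fun g => ?_)
    have h3 : ‖D x g - ∫ g, D x g ∂(gam (Fin n × Fin N × Fin N))‖ ≤
        δ⁻¹ + ‖∫ g, D x g ∂(gam (Fin n × Fin N × Fin N))‖ :=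
      (norm_sub_le _ _).trans (add_le_add (hDb x g) le_rfl)
    rw [Real.norm_eq_abs, abs_of_nonneg (by positivity)]
    exact pow_le_pow_left₀ (norm_nonneg _) h3 2
  have hpt : ∀ g, (tg (AN a N g) δ / (m * N) -
      (∫ h, tg (AN a N h) δ ∂(gam (Fin n × Fin N × Fin N))) / (m * N)) ^ 2 ≤
      (m : ℝ)⁻¹ * ∑ x, ‖D x g - ∫ g, D x g ∂(gam (Fin n × Fin N × Fin N))‖ ^ 2 := by
    intro g
    rw [hdev, mul_pow]
    set E : Fin m → ℂ := fun x => D x g - ∫ g, D x g ∂(gam (Fin n × Fin N × Fin N)) with hE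
    have a1 : (∑ x, E x).im ^ 2 ≤ ‖∑ x, E x‖ ^ 2 := by
      rw [← sq_abs (∑ x, E x).im]
      exact pow_le_pow_left₀ (abs_nonneg _) (Complex.abs_im_le_norm _) 2
    have a2 : ‖∑ x, E x‖ ^ 2 ≤ (∑ x, ‖E x‖) ^ 2 :=
      pow_le_pow_left₀ (norm_nonneg _) (norm_sum_le _ _) 2
    have a3 : (∑ x, ‖E x‖) ^ 2 ≤ (m : ℝ) * ∑ x, ‖E x‖ ^ 2 := by
      have := sq_sum_le_card_mul_sum_sq (s := (Finset.univ : Finset (Fin m)))
        (f := fun x => ‖E x‖)
      simpa using this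
    calc ((m : ℝ)⁻¹) ^ 2 * (∑ x, E x).im ^ 2
        ≤ ((m : ℝ)⁻¹) ^ 2 * ((m : ℝ) * ∑ x, ‖E x‖ ^ 2) :=
          mul_le_mul_of_nonneg_left (a1.trans (a2.trans a3)) (by positivity)
      _ = (m : ℝ)⁻¹ * ∑ x, ‖E x‖ ^ 2 := by field_simp
  have hbd : Integrable (fun g => (m : ℝ)⁻¹ *
      ∑ x, ‖D x g - ∫ g, D x g ∂(gam (Fin n × Fin N × Fin N))‖ ^ 2)
      (gam (Fin n × Fin N × Fin N)) :=
    (integrable_finsetSum _ fun x _ => hsqi x).const_mul _
  have hint : Integrable (fun g => (tg (AN a N g) δ / (m * N) -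
      (∫ h, tg (AN a N h) δ ∂(gam (Fin n × Fin N × Fin N))) / (m * N)) ^ 2)
      (gam (Fin n × Fin N × Fin N)) := by
    refine hbd.mono' ?_ (ae_of_all _ fun g => ?_)
    · simp_rw [hdev]
      refine Continuous.aestronglyMeasurable ?_
      refine (continuous_const.mul (Complex.continuous_im.comp
        (continuous_finsetSum _ fun x _ => (hDc x).sub continuous_const))).pow 2
    · rw [Real.norm_eq_abs, abs_of_nonneg (sq_nonneg _)]
      exact hpt g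
  refine ⟨hint, ?_⟩
  calc ∫ g, (tg (AN a N g) δ / (m * N) -
        (∫ h, tg (AN a N h) δ ∂(gam (Fin n × Fin N × Fin N))) / (m * N)) ^ 2
        ∂(gam (Fin n × Fin N × Fin N))
      ≤ ∫ g, (m : ℝ)⁻¹ * ∑ x, ‖D x g - ∫ g, D x g ∂(gam (Fin n × Fin N × Fin N))‖ ^ 2
        ∂(gam (Fin n × Fin N × Fin N)) := integral_mono hint hbd hpt
    _ = (m : ℝ)⁻¹ * ∑ x, ∫ g, ‖D x g - ∫ g, D x g ∂(gam (Fin n × Fin N × Fin N))‖ ^ 2
        ∂(gam (Fin n × Fin N × Fin N)) := by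
        rw [integral_const_mul, integral_finsetSum _ fun x _ => hsqi x]
    _ ≤ (m : ℝ)⁻¹ * ∑ x : Fin m, C / ((N : ℝ) ^ 2 * δ ^ 4) := by
        refine mul_le_mul_of_nonneg_left (Finset.sum_le_sum fun x _ => ?_) (by positivity)
        exact hC N δ hN hδ (Sum.inl x) (Sum.inl x)
    _ = C / ((N : ℝ) ^ 2 * δ ^ 4) := by
        rw [Finset.sum_const, Finset.card_univ, Fintype.card_fin, nsmul_eq_mul]
        field_simp

end Pool.Agent.W473.GB
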