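import Pool.Agent.W473.GB.SD

set_option autoImplicit false
open MeasureTheory ProbabilityTheory
open scoped Matrix

namespace Pool.Agent.W473.GB
open Pool.Agent.W837.GB

theorem AN_cont {n m : ℕ} (a : Fin n → Matrix (Fin m) (Fin m) ℂ) (N : ℕ) :
    Continuous (fun g : Fin n × Fin N × Fin N → ℝ => AN a N g) := by
  refine continuous_matrix fun i j => ?_
  simp only [AN, W, Matrix.smul_apply, Matrix.sum_apply, Hm, smul_eq_mul, Matrix.kronecker,
    Matrix.kroneckerMap_apply]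
  fun_prop

theorem tg_meas {n m : ℕ} (a : Fin n → Matrix (Fin m) (Fin m) ℂ) (N : ℕ) :
    Measurable (fun p : (Fin n × Fin N × Fin N → ℝ) × ℝ => tg (AN a N p.1) p.2) := by
  have hA : Continuous (fun p : (Fin n × Fin N × Fin N → ℝ) × ℝ => AN a N p.1) :=
    (AN_cont a N).comp continuous_fst
  have hQ : Continuous (fun p : (Fin n × Fin N × Fin N → ℝ) × ℝ => Q (AN a N p.1) p.2) := by
    unfold Q
    have h2 : Continuous (fun p : (Fin n × Fin N × Fin N → ℝ) × ℝ => p.2 ^ 2) :=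
      continuous_snd.pow 2
    have h3 : Continuous (fun p : (Fin n × Fin N × Fin N → ℝ) × ℝ => ((p.2 ^ 2 : ℝ) : ℂ)) :=
      Complex.continuous_ofReal.comp h2
    exact (hA.matrix_mul hA.matrix_conjTranspose).add (h3.smul continuous_const)
  unfold tg
  refine measurable_snd.mul (Complex.measurable_re.comp ?_)
  simp only [Matrix.inv_def, Matrix.trace, Matrix.diag_apply, Matrix.smul_apply, smul_eq_mul,
    Ring.inverse_eq_inv']
  refine Finset.measurable_sum _ fun i _ => ?_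
  refine Measurable.mul ?_ ?_
  · exact (hQ.matrix_det.measurable).inv
  · exact ((hQ.matrix_adjugate).matrix_elem i i).measurable

theorem int_pow_bound {δ L : ℝ} (hδ : 0 < δ) (hδ1 : δ ≤ 1) (hL : δ ≤ L) :
    ∫ t in δ..L, (2 * (t⁻¹ ^ 5 + t⁻¹ ^ 7)) ≤ δ⁻¹ ^ 6 := by
  have hderiv : ∀ t ∈ Set.uIcc δ L,
      HasDerivAt (fun t : ℝ => -(t⁻¹ ^ 4 / 2 + t⁻¹ ^ 6 / 3)) (2 * (t⁻¹ ^ 5 + t⁻¹ ^ 7)) t := by
    intro t ht
    rw [Set.uIcc_of_le hL] at ht
    have ht0 : t ≠ 0 := (hδ.trans_le ht.1).ne'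
    have h1 : HasDerivAt (fun t : ℝ => t⁻¹) (-(t ^ 2)⁻¹) t := hasDerivAt_inv ht0
    have h4 := (h1.fun_pow 4).div_const 2
    have h6 := (h1.fun_pow 6).div_const 3
    refine ((h4.add h6).neg).congr_deriv ?_
    rw [← inv_pow]
    push_cast
    norm_num
    ring
  have hcont : ContinuousOn (fun t : ℝ => 2 * (t⁻¹ ^ 5 + t⁻¹ ^ 7)) (Set.uIcc δ L) := by
    have hi : ContinuousOn (fun t : ℝ => t⁻¹) (Set.uIcc δ L) := by
      refine continuousOn_id.inv₀ fun t ht => ?_
      rw [Set.uIcc_of_le hL] at ht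
      exact (hδ.trans_le ht.1).ne'
    exact continuousOn_const.mul ((hi.pow 5).add (hi.pow 7))
  rw [intervalIntegral.integral_eq_sub_of_hasDerivAt hderiv hcont.intervalIntegrable]
  have hL0 : 0 < L := hδ.trans_le hL
  have p1 : 0 ≤ L⁻¹ ^ 4 / 2 + L⁻¹ ^ 6 / 3 := by positivity
  have hd1 : 1 ≤ δ⁻¹ := (one_le_inv₀ hδ).2 hδ1
  have p2 : δ⁻¹ ^ 4 ≤ δ⁻¹ ^ 6 := pow_le_pow_right₀ hd1 (by norm_num)
  have p3 : 0 ≤ δ⁻¹ ^ 6 := by positivity
  linarith

theorem lmean (h1 : S_GMEAN) (h2 : S_LDER) (h3 : S_LLARGE) (h4 : S_FINT) : S_LMEAN := by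
  intro n m a hm hDS
  obtain ⟨C1, hC1, hG⟩ := h1 n m a hm hDS
  obtain ⟨C2, hF⟩ := h4
  refine ⟨3 + C1, by positivity, ?_⟩
  intro N δ hN hδ hδ1
  have hNr : (0 : ℝ) < N := by exact_mod_cast hN
  have hmr : (0 : ℝ) < m := by exact_mod_cast hm
  have hmN : (0 : ℝ) < m * N := by positivity
  -- the choice of L
  set L : ℝ := 1 + (1 + |C2|) / δ with hLdef
  have hL1 : 1 ≤ L := by
    have : 0 ≤ (1 + |C2|) / δ := by positivity
    linarith
  have hL0 : 0 < L := by linarith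
  have hδL : δ ≤ L := hδ1.trans hL1
  have hLinv : (1 + |C2|) / L ^ 2 ≤ δ := by
    rw [div_le_iff₀ (by positivity)]
    have e1 : (1 + |C2|) / δ ≤ L := by linarith
    have e2 : 1 + |C2| ≤ L * δ := (div_le_iff₀ hδ).1 e1
    have e3 : L ≤ L ^ 2 := by nlinarith
    nlinarith
  -- the truncated integrand
  let f : (Fin n × Fin N × Fin N → ℝ) → ℝ → ℝ := fun g t => 2 * tg (AN a N g) (max t δ)
  have hcard : (Fintype.card (Fin m × Fin N) : ℝ) = m * N := by
    rw [Fintype.card_prod, Fintype.card_fin, Fintype.card_fin]; push_cast; ring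
  have hfb : ∀ g t, ‖f g t‖ ≤ 2 * (m * N / δ) := by
    intro g t
    have ht : 0 < max t δ := lt_max_of_lt_right hδ
    have hb := (h2 (Fin m × Fin N) (AN a N g)).1 (max t δ) ht
    rw [hcard] at hb
    have hb2 : tg (AN a N g) (max t δ) ≤ m * N / δ :=
      hb.2.2.trans (div_le_div_of_nonneg_left hmN.le hδ (le_max_right _ _))
    simp only [f]
    rw [Real.norm_eq_abs, abs_of_nonneg (by linarith [hb.2.1])]
    linarith
  have hfm : Measurable (Function.uncurry f) := by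
    have := (tg_meas a N).comp
      ((measurable_fst).prodMk ((measurable_snd (α := Fin n × Fin N × Fin N → ℝ) (β := ℝ)).max
        (measurable_const (a := δ))))
    exact this.const_mul 2
  have hfi : Integrable (Function.uncurry f)
      ((gam (Fin n × Fin N × Fin N)).prod (volume.restrict (Set.Ioc δ L))) :=
    Integrable.of_bound hfm.aestronglyMeasurable (2 * (m * N / δ))
      (ae_of_all _ fun p => hfb p.1 p.2)
  have hsw := integral_integral_swap hfi
  have hfmax : ∀ g, ∫ t in Set.Ioc δ L, f g t = ∫ t in δ..L, 2 * tg (AN a N g) t := by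
    intro g
    rw [intervalIntegral.integral_of_le hδL]
    refine setIntegral_congr_fun measurableSet_Ioc fun t ht => ?_
    simp only [f]
    rw [max_eq_left ht.1.le]
  -- mean of the trace
  let mt : ℝ → ℝ := fun t => (∫ g, tg (AN a N g) (max t δ) ∂(gam (Fin n × Fin N × Fin N))) / (m * N)
  have hmti : IntegrableOn (fun t => 2 * mt t) (Set.Ioc δ L) := by
    have := hfi.integral_prod_right
    have h5 := this.div_const (m * N : ℝ)
    refine h5.congr (ae_of_all _ fun t => ?_)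
    simp only [Function.uncurry, f, mt]
    rw [integral_const_mul]
    ring
  have hms : ∀ t, δ ≤ t → |mt t - ms t| ≤ C1 / (N : ℝ) ^ 2 * (t⁻¹ ^ 5 + t⁻¹ ^ 7) := by
    intro t ht
    have := (hG N t hN (hδ.trans_le ht)).2
    simp only [mt]
    rw [max_eq_left ht]
    exact this
  -- integrate the pointwise formula
  have hld : ∀ g, ld (AN a N g) δ = ld (AN a N g) L - ∫ t in Set.Ioc δ L, f g t := by
    intro g
    have := (h2 (Fin m × Fin N) (AN a N g)).2.2 δ L hδ hδL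
    rw [hfmax g]
    linarith
  obtain ⟨hLi, hLlo, hLhi⟩ := h3 n m a hm hDS N L hN hL0
  have hmean : (∫ g, ld (AN a N g) δ ∂(gam (Fin n × Fin N × Fin N))) / (m * N) =
      (∫ g, ld (AN a N g) L ∂(gam (Fin n × Fin N × Fin N))) / (m * N) - ∫ t in δ..L, 2 * mt t := by
    simp_rw [hld]
    have hpl : Integrable (fun g => ∫ t in Set.Ioc δ L, f g t)
        (gam (Fin n × Fin N × Fin N)) := hfi.integral_prod_left
    rw [integral_sub hLi hpl, hsw, sub_div]
    congr 1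
    rw [intervalIntegral.integral_of_le hδL, ← integral_div]
    refine setIntegral_congr_fun measurableSet_Ioc fun t _ => ?_
    simp only [f, mt]
    rw [integral_const_mul]
    ring
  have hmsc : Continuous ms := by
    unfold ms
    fun_prop
  have hmsi : IntervalIntegrable (fun t => 2 * ms t) volume δ L :=
    (continuous_const.mul hmsc).intervalIntegrable _ _
  have hmti' : IntervalIntegrable (fun t => 2 * mt t) volume δ L :=
    (intervalIntegrable_iff_integrableOn_Ioc_of_le hδL).2 hmti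
  have hbdi : IntervalIntegrable (fun t : ℝ => C1 / (N : ℝ) ^ 2 * (2 * (t⁻¹ ^ 5 + t⁻¹ ^ 7)))
      volume δ L := by
    refine ContinuousOn.intervalIntegrable ?_
    have hi : ContinuousOn (fun t : ℝ => t⁻¹) (Set.uIcc δ L) := by
      refine continuousOn_id.inv₀ fun t ht => ?_
      rw [Set.uIcc_of_le hδL] at ht
      exact (hδ.trans_le ht.1).ne'
    exact continuousOn_const.mul (continuousOn_const.mul ((hi.pow 5).add (hi.pow 7)))
  have hdiff : |(∫ t in δ..L, 2 * mt t) - ∫ t in δ..L, 2 * ms t| ≤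
      C1 / (N : ℝ) ^ 2 * δ⁻¹ ^ 6 := by
    rw [← intervalIntegral.integral_sub hmti' hmsi, ← Real.norm_eq_abs]
    calc ‖∫ t in δ..L, (2 * mt t - 2 * ms t)‖
        ≤ ∫ t in δ..L, C1 / (N : ℝ) ^ 2 * (2 * (t⁻¹ ^ 5 + t⁻¹ ^ 7)) := by
          refine intervalIntegral.norm_integral_le_of_norm_le hδL ?_ hbdi
          refine ae_of_all _ fun t ht => ?_
          rw [Real.norm_eq_abs, ← mul_sub, abs_mul, abs_two]
          have := hms t ht.1.le
          linarith
      _ = C1 / (N : ℝ) ^ 2 * ∫ t in δ..L, (2 * (t⁻¹ ^ 5 + t⁻¹ ^ 7)) := by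
          rw [intervalIntegral.integral_const_mul]
      _ ≤ C1 / (N : ℝ) ^ 2 * δ⁻¹ ^ 6 :=
          mul_le_mul_of_nonneg_left (int_pow_bound hδ hδ1 hδL) (by positivity)
  have hF' := hF δ L hδ hδ1 hL1
  have hLsq : 0 < L ^ 2 := by positivity
  have hC2 : C2 / L ^ 2 ≤ |C2| / L ^ 2 := div_le_div_of_nonneg_right (le_abs_self _) hLsq.le
  have hsplit : (1 + |C2|) / L ^ 2 = (L ^ 2)⁻¹ + |C2| / L ^ 2 := by
    rw [add_div, one_div]
  rw [hmean]
  have b1 := abs_le.1 hdiff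
  have b2 := abs_le.1 hF'
  have hfin : C1 / (N : ℝ) ^ 2 * δ⁻¹ ^ 6 = C1 * (δ⁻¹ ^ 6 / (N : ℝ) ^ 2) := by ring
  have hp : 0 ≤ δ⁻¹ ^ 6 / (N : ℝ) ^ 2 := by positivity
  rw [hfin] at b1
  have hexp : (3 + C1) * (δ + δ⁻¹ ^ 6 / (N : ℝ) ^ 2) = 3 * δ + C1 * δ +
      3 * (δ⁻¹ ^ 6 / (N : ℝ) ^ 2) + C1 * (δ⁻¹ ^ 6 / (N : ℝ) ^ 2) := by ring
  have hC1δ : 0 ≤ C1 * δ := by positivity
  rw [abs_le, hexp]
  constructor
  · linarith [b1.1, b1.2, b2.1, b2.2]
  · linarith [b1.1, b1.2, b2.1, b2.2]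

end Pool.Agent.W473.GB
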