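import Pool.Agent.W837.GB.Defs

set_option autoImplicit false
open MeasureTheory ProbabilityTheory
open scoped Matrix

namespace Pool.Agent.W473.GB
open Pool.Agent.W837.GB

instance gam_prob (ι : Type) [Fintype ι] : IsProbabilityMeasure (gam ι) := by
  unfold gam; infer_instance

theorem Hm_herm {κ : Type} (g : κ → κ → ℝ) : (Hm g).IsHermitian := by
  ext k l
  simp only [Matrix.conjTranspose_apply, Hm]
  rw [Complex.star_def, map_add, map_mul, Complex.conj_ofReal, Complex.conj_ofReal, Complex.conj_I]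
  push_cast
  ring

theorem AN_herm {n : ℕ} {ν : Type} (α : Fin n → Matrix ν ν ℂ) (hα : ∀ j, (α j).IsHermitian)
    (N : ℕ) (g : Fin n × Fin N × Fin N → ℝ) : (AN α N g).IsHermitian := by
  unfold AN W
  unfold Matrix.IsHermitian
  rw [Matrix.conjTranspose_smul, Matrix.conjTranspose_sum, Complex.star_def, Complex.conj_ofReal]
  congr 1
  refine Finset.sum_congr rfl fun j _ => ?_
  have h1 := hα j
  have h2 := Hm_herm (fun k l => g (j, k, l))
  rw [Matrix.IsHermitian] at h1 h2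
  change (Matrix.kroneckerMap (fun x1 x2 => x1 * x2) (α j) (Hm fun k l => g (j, k, l)))ᴴ = _
  rw [Matrix.conjTranspose_kronecker, h1, h2]
  rfl

theorem cov_bound {Ω : Type} [MeasurableSpace Ω] (μ : Measure Ω) [IsProbabilityMeasure μ]
    (f g : Ω → ℂ) (K B : ℝ) (hf : AEStronglyMeasurable f μ) (hg : AEStronglyMeasurable g μ)
    (hfB : ∀ ω, ‖f ω‖ ≤ B) (hgB : ∀ ω, ‖g ω‖ ≤ B)
    (h1 : ∫ ω, ‖f ω - ∫ t, f t ∂μ‖ ^ 2 ∂μ ≤ K) (h2 : ∫ ω, ‖g ω - ∫ t, g t ∂μ‖ ^ 2 ∂μ ≤ K) :
    ‖(∫ ω, f ω * g ω ∂μ) - (∫ ω, f ω ∂μ) * (∫ ω, g ω ∂μ)‖ ≤ K := by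
  have hfi : Integrable f μ := Integrable.of_bound hf B (ae_of_all _ hfB)
  have hgi : Integrable g μ := Integrable.of_bound hg B (ae_of_all _ hgB)
  have hfg : Integrable (fun ω => f ω * g ω) μ := by
    refine Integrable.of_bound (hf.mul hg) (B * B) (ae_of_all _ fun ω => ?_)
    rw [norm_mul]
    exact mul_le_mul (hfB ω) (hgB ω) (norm_nonneg _) ((norm_nonneg _).trans (hfB ω))
  set a := ∫ ω, f ω ∂μ with ha
  set b := ∫ ω, g ω ∂μ with hb
  have hfa : Integrable (fun ω => f ω - a) μ := hfi.sub (integrable_const a)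
  have hgb : Integrable (fun ω => g ω - b) μ := hgi.sub (integrable_const b)
  have key : (∫ ω, f ω * g ω ∂μ) - a * b = ∫ ω, (f ω - a) * (g ω - b) ∂μ := by
    have e : ∀ ω, (f ω - a) * (g ω - b) = f ω * g ω - a * g ω - b * f ω + a * b := by
      intro ω; ring
    simp_rw [e]
    rw [integral_add, integral_sub, integral_sub, integral_const_mul, integral_const_mul,
      integral_const]
    · simp only [probReal_univ, one_smul]
      rw [← ha, ← hb]; ring
    · exact hfg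
    · exact hgi.const_mul a
    · exact hfg.sub (hgi.const_mul a)
    · exact hfi.const_mul b
    · exact (hfg.sub (hgi.const_mul a)).sub (hfi.const_mul b)
    · exact integrable_const _
  have hsq : ∀ (u : Ω → ℂ) (c : ℂ), AEStronglyMeasurable u μ → (∀ ω, ‖u ω‖ ≤ B) →
      Integrable (fun ω => ‖u ω - c‖ ^ 2) μ := by
    intro u c hu hB
    refine Integrable.of_bound (((hu.sub aestronglyMeasurable_const).norm).pow 2)
      ((B + ‖c‖) ^ 2) (ae_of_all _ fun ω => ?_)
    have h3 : ‖u ω - c‖ ≤ B + ‖c‖ := (norm_sub_le _ _).trans (add_le_add (hB ω) le_rfl)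
    rw [Real.norm_eq_abs, abs_of_nonneg (by positivity)]
    exact pow_le_pow_left₀ (norm_nonneg _) h3 2
  rw [key]
  calc ‖∫ ω, (f ω - a) * (g ω - b) ∂μ‖ ≤ ∫ ω, ‖(f ω - a) * (g ω - b)‖ ∂μ :=
        norm_integral_le_integral_norm _
    _ ≤ ∫ ω, (‖f ω - a‖ ^ 2 + ‖g ω - b‖ ^ 2) / 2 ∂μ := by
        refine integral_mono_of_nonneg (ae_of_all _ fun ω => norm_nonneg _)
          (((hsq f a hf hfB).add (hsq g b hg hgB)).div_const 2) (ae_of_all _ fun ω => ?_)
        simp only [norm_mul]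
        nlinarith [sq_nonneg (‖f ω - a‖ - ‖g ω - b‖)]
    _ = ((∫ ω, ‖f ω - a‖ ^ 2 ∂μ) + ∫ ω, ‖g ω - b‖ ^ 2 ∂μ) / 2 := by
        rw [integral_div, integral_add (hsq f a hf hfB) (hsq g b hg hgB)]
    _ ≤ K := by linarith

theorem entry4 {ν : Type} [Fintype ν] [DecidableEq ν] (A X B Y : Matrix ν ν ℂ) (x y : ν) :
    (A * X * B * Y) x y = ∑ c, ∑ b, ∑ a, A x a * X a b * B b c * Y c y := by
  simp only [Matrix.mul_apply, Finset.sum_mul]

theorem sd (h0 : S_SDE) (h1 : S_RB) (h2 : S_RES) (h3 : S_RD) : S_SD := by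
  intro ν _ _ n α hα
  obtain ⟨C, hC0, hC⟩ := h1 ν n α hα
  refine ⟨C * ∑ x, ∑ j, ∑ c, ∑ b, ∑ a, ‖α j x a‖ * ‖α j b c‖, by positivity, ?_⟩
  intro N δ hN hδ M hM x y
  have hNr : (0 : ℝ) < N := by exact_mod_cast hN
  set R : (Fin n × Fin N × Fin N → ℝ) → Matrix ν ν ℂ := fun g => pt (res (AN α N g) δ) with hR
  have hRc : ∀ a b, Continuous (fun g => R g a b) := by
    intro a b
    simp only [hR, pt]
    refine continuous_const.mul (continuous_finsetSum _ fun k _ => ?_)
    exact ((h3 ν n α N δ hα hN hδ (a, k) (b, k)).1).continuous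
  have hRb : ∀ a b g, ‖R g a b‖ ≤ δ⁻¹ := by
    intro a b g
    simp only [hR, pt]
    have hs := (h2 (ν × Fin N) (AN α N g) δ (AN_herm α hα N g) hδ).2.1
    rw [norm_mul, norm_inv, Complex.norm_natCast]
    calc (N : ℝ)⁻¹ * ‖∑ k, res (AN α N g) δ (a, k) (b, k)‖
        ≤ (N : ℝ)⁻¹ * ∑ k : Fin N, δ⁻¹ := by
          refine mul_le_mul_of_nonneg_left ?_ (by positivity)
          exact (norm_sum_le _ _).trans (Finset.sum_le_sum fun k _ => hs _ _)
      _ = δ⁻¹ := by
          rw [Finset.sum_const, Finset.card_univ, Fintype.card_fin, nsmul_eq_mul]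
          field_simp
  have hRm : ∀ a b, AEStronglyMeasurable (fun g => R g a b) (gam (Fin n × Fin N × Fin N)) :=
    fun a b => (hRc a b).aestronglyMeasurable
  have hRi : ∀ a b, Integrable (fun g => R g a b) (gam (Fin n × Fin N × Fin N)) :=
    fun a b => Integrable.of_bound (hRm a b) _ (ae_of_all _ (hRb a b))
  have hRRi : ∀ a b c, Integrable (fun g => R g a b * R g c y) (gam (Fin n × Fin N × Fin N)) := by
    intro a b c
    refine Integrable.of_bound ((hRm a b).mul (hRm c y)) (δ⁻¹ * δ⁻¹) (ae_of_all _ fun g => ?_)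
    rw [norm_mul]
    exact mul_le_mul (hRb a b g) (hRb c y g) (norm_nonneg _) (by positivity)
  have hcov : ∀ a b c, ‖(∫ g, R g a b * R g c y ∂(gam (Fin n × Fin N × Fin N))) -
      M a b * M c y‖ ≤ C / ((N : ℝ) ^ 2 * δ ^ 4) := by
    intro a b c
    rw [hM a b, hM c y]
    exact cov_bound _ _ _ _ δ⁻¹ (hRm a b) (hRm c y) (hRb a b) (hRb c y) (hC N δ hN hδ a b)
      (hC N δ hN hδ c y)
  have hsde := h0 ν n α N δ hα hN hδ x y
  have e1 : (∫ g, (∑ j, α j * R g * α j * R g) x y ∂(gam (Fin n × Fin N × Fin N))) =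
      ∑ j, ∑ c, ∑ b, ∑ a, α j x a * α j b c *
        ∫ g, R g a b * R g c y ∂(gam (Fin n × Fin N × Fin N)) := by
    have e2 : ∀ g, (∑ j, α j * R g * α j * R g) x y =
        ∑ j, ∑ c, ∑ b, ∑ a, α j x a * α j b c * (R g a b * R g c y) := by
      intro g
      rw [Matrix.sum_apply]
      refine Finset.sum_congr rfl fun j _ => ?_
      rw [entry4]
      refine Finset.sum_congr rfl fun c _ => Finset.sum_congr rfl fun b _ =>
        Finset.sum_congr rfl fun a _ => by ring
    simp_rw [e2]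
    rw [integral_finsetSum _ fun j _ => integrable_finsetSum _ fun c _ =>
      integrable_finsetSum _ fun b _ => integrable_finsetSum _ fun a _ =>
        (hRRi a b c).const_mul _]
    refine Finset.sum_congr rfl fun j _ => ?_
    rw [integral_finsetSum _ fun c _ =>
      integrable_finsetSum _ fun b _ => integrable_finsetSum _ fun a _ =>
        (hRRi a b c).const_mul _]
    refine Finset.sum_congr rfl fun c _ => ?_
    rw [integral_finsetSum _ fun b _ => integrable_finsetSum _ fun a _ =>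
        (hRRi a b c).const_mul _]
    refine Finset.sum_congr rfl fun b _ => ?_
    rw [integral_finsetSum _ fun a _ => (hRRi a b c).const_mul _]
    refine Finset.sum_congr rfl fun a _ => ?_
    rw [integral_const_mul]
  have e3 : (∑ j, α j * M * α j * M) x y =
      ∑ j, ∑ c, ∑ b, ∑ a, α j x a * α j b c * (M a b * M c y) := by
    rw [Matrix.sum_apply]
    refine Finset.sum_congr rfl fun j _ => ?_
    rw [entry4]
    refine Finset.sum_congr rfl fun c _ => Finset.sum_congr rfl fun b _ =>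
      Finset.sum_congr rfl fun a _ => by ring
  have e4 : (∑ j, α j * M * α j * M + ((δ : ℂ) * Complex.I) • M + 1) x y =
      -∑ j, ∑ c, ∑ b, ∑ a, α j x a * α j b c *
        ((∫ g, R g a b * R g c y ∂(gam (Fin n × Fin N × Fin N))) - M a b * M c y) := by
    have e5 : (∑ j, α j * M * α j * M + ((δ : ℂ) * Complex.I) • M + 1) x y =
        (∑ j, α j * M * α j * M) x y + (δ : ℂ) * Complex.I * M x y + (1 : Matrix ν ν ℂ) x y := by
      simp only [Matrix.add_apply, Matrix.smul_apply, smul_eq_mul]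
    have e6 : (δ : ℂ) * Complex.I * M x y + (1 : Matrix ν ν ℂ) x y =
        -∫ g, (∑ j, α j * R g * α j * R g) x y ∂(gam (Fin n × Fin N × Fin N)) := by
      rw [hM x y]
      linear_combination hsde
    rw [e5, add_assoc, e6, e1, e3]
    simp only [mul_sub, Finset.sum_sub_distrib]
    ring
  rw [e4, norm_neg]
  calc ‖∑ j, ∑ c, ∑ b, ∑ a, α j x a * α j b c *
        ((∫ g, R g a b * R g c y ∂(gam (Fin n × Fin N × Fin N))) - M a b * M c y)‖
      ≤ ∑ j, ∑ c, ∑ b, ∑ a, ‖α j x a‖ * ‖α j b c‖ * (C / ((N : ℝ) ^ 2 * δ ^ 4)) := by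
        refine (norm_sum_le _ _).trans (Finset.sum_le_sum fun j _ => ?_)
        refine (norm_sum_le _ _).trans (Finset.sum_le_sum fun c _ => ?_)
        refine (norm_sum_le _ _).trans (Finset.sum_le_sum fun b _ => ?_)
        refine (norm_sum_le _ _).trans (Finset.sum_le_sum fun a _ => ?_)
        rw [norm_mul, norm_mul]
        exact mul_le_mul_of_nonneg_left (hcov a b c) (by positivity)
    _ = (∑ j, ∑ c, ∑ b, ∑ a, ‖α j x a‖ * ‖α j b c‖) * (C / ((N : ℝ) ^ 2 * δ ^ 4)) := by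
        simp only [Finset.sum_mul]
    _ ≤ (∑ x, ∑ j, ∑ c, ∑ b, ∑ a, ‖α j x a‖ * ‖α j b c‖) * (C / ((N : ℝ) ^ 2 * δ ^ 4)) := by
        refine mul_le_mul_of_nonneg_right ?_ (by positivity)
        exact Finset.single_le_sum
          (f := fun x => ∑ j, ∑ c, ∑ b, ∑ a, ‖α j x a‖ * ‖α j b c‖)
          (fun i _ => by positivity) (Finset.mem_univ x)
    _ = C * (∑ x, ∑ j, ∑ c, ∑ b, ∑ a, ‖α j x a‖ * ‖α j b c‖) / ((N : ℝ) ^ 2 * δ ^ 4) := by
        ring

end Pool.Agent.W473.GB
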